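import Pool.Agent.Hp21.DetBound

set_option autoImplicit false

/-!
# Reduced size of unique solutions of additive equation systems

If a system of equations `x_i = 1`, `x_i + x_j = x_k` in `n` variables has exactly one complex
solution, then the coordinates of the solution are rational numbers whose numerators and
denominators (in lowest terms) have absolute value at most `2 ^ (n - 1)`.
-/

namespace Pool.Agent.Results.MP_555c3f_al.PowerBound

open Matrix Pool.Agent.Hp21

/-- The equations of `W_n`: `one i` is `x_i = 1` and `add i j k` is `x_i + x_j = x_k`. -/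
inductive Equation (n : ℕ) where
  | one (i : Fin n) : Equation n
  | add (i j k : Fin n) : Equation n

/-- The tuple `x` satisfies the equation. -/
def Equation.Holds {n : ℕ} (x : Fin n → ℂ) : Equation n → Prop
  | .one i => x i = 1
  | .add i j k => x i + x j = x k

/-- the homogeneous rows attached to a system in which `x_o = 1` occurs -/
def rows {n : ℕ} (S : Set (Equation n)) (o : Fin n) : Set (Fin n → ℤ) :=
  {r | (∃ i j k, Equation.add i j k ∈ S ∧ r = Pi.single i 1 + Pi.single j 1 - Pi.single k 1) ∨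
    ∃ i, Equation.one i ∈ S ∧ r = Pi.single i 1 - Pi.single o 1}

/-- casting a row -/
def castRow {n : ℕ} (r : Fin n → ℤ) : Fin n → ℂ := fun i => (r i : ℂ)

theorem castRow_single {n : ℕ} (i : Fin n) :
    castRow (Pi.single i 1) = (Pi.single i 1 : Fin n → ℂ) := by
  ext j
  by_cases h : j = i
  · subst h; simp [castRow]
  · simp [castRow, Pi.single_eq_of_ne h]

theorem castRow_add {n : ℕ} (r s : Fin n → ℤ) : castRow (r + s) = castRow r + castRow s := by
  ext j; simp [castRow]

theorem castRow_sub {n : ℕ} (r s : Fin n → ℤ) : castRow (r - s) = castRow r - castRow s := by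
  ext j; simp [castRow]

theorem span_top {n : ℕ} (S : Set (Equation n)) (o : Fin n)
    (x : Fin n → ℂ) (hx : ∀ e ∈ S, e.Holds x)
    (huniq : ∀ y : Fin n → ℂ, (∀ e ∈ S, e.Holds y) → y = x) :
    Submodule.span ℂ (insert (Pi.single o 1 : Fin n → ℂ) (castRow '' rows S o)) = ⊤ := by
  by_contra hne
  obtain ⟨f, hf0, hf⟩ := Submodule.exists_le_ker_of_lt_top _ (lt_top_iff_ne_top.2 hne)
  have hf1 : ∀ v ∈ insert (Pi.single o 1 : Fin n → ℂ) (castRow '' rows S o), f v = 0 :=
    fun v hv => hf (Submodule.subset_span hv)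
  have h0 : f (Pi.single o 1) = 0 := hf1 _ (Set.mem_insert _ _)
  have h1 : ∀ i, Equation.one i ∈ S → f (Pi.single i 1) = 0 := by
    intro i hi
    have := hf1 _ (Set.mem_insert_of_mem _ ⟨_, Or.inr ⟨i, hi, rfl⟩, rfl⟩)
    rw [castRow_sub, castRow_single, castRow_single, map_sub, h0, sub_zero] at this
    exact this
  have h2 : ∀ i j k, Equation.add i j k ∈ S →
      f (Pi.single i 1) + f (Pi.single j 1) = f (Pi.single k 1) := by
    intro i j k hi
    have := hf1 _ (Set.mem_insert_of_mem _ ⟨_, Or.inl ⟨i, j, k, hi, rfl⟩, rfl⟩)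
    rw [castRow_sub, castRow_add, castRow_single, castRow_single, castRow_single, map_sub,
      map_add] at this
    exact sub_eq_zero.1 this
  have h3 := huniq (fun i => x i + f (Pi.single i 1)) (by
    intro e he
    cases e with
    | one i =>
      have := hx _ he
      simp only [Equation.Holds] at this ⊢
      rw [h1 i he, this, add_zero]
    | add i j k =>
      have := hx _ he
      simp only [Equation.Holds] at this ⊢
      rw [← this, ← h2 i j k he]
      ring)
  have h4 : ∀ i, f (Pi.single i 1) = 0 := by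
    intro i
    have := congrFun h3 i
    linear_combination this
  apply hf0
  refine LinearMap.pi_ext fun i c => ?_
  have : (Pi.single i c : Fin n → ℂ) = c • Pi.single i 1 := by
    ext j
    by_cases h : j = i
    · subst h; simp
    · simp [Pi.single_eq_of_ne h]
  rw [this, map_smul, h4]
  simp

theorem exists_matrix {m : ℕ} (S : Set (Equation (m + 1))) (o : Fin (m + 1))
    (ho : Equation.one o ∈ S) (x : Fin (m + 1) → ℂ) (hx : ∀ e ∈ S, e.Holds x)
    (huniq : ∀ y : Fin (m + 1) → ℂ, (∀ e ∈ S, e.Holds y) → y = x) :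
    ∃ A : Matrix (Fin (m + 1)) (Fin (m + 1)) ℤ, A 0 = Pi.single o 1 ∧
      (∀ i, i ≠ 0 → A i ∈ rows S o) ∧ A.det ≠ 0 := by
  classical
  set t : Set (Fin (m + 1) → ℂ) := insert (Pi.single o 1) (castRow '' rows S o) with ht
  have hs : LinearIndepOn ℂ id ({Pi.single o 1} : Set (Fin (m + 1) → ℂ)) := by
    refine LinearIndepOn.singleton (v := id) ?_
    simp only [id]
    intro h
    have := congrFun h o
    simp at this
  obtain ⟨b, hbt, hsb, htb, hb⟩ := exists_linearIndepOn_id_extension hs
    (Set.singleton_subset_iff.2 (Set.mem_insert _ _) : _ ⊆ t)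
  have hspan : ⊤ ≤ Submodule.span ℂ (Set.range ((↑) : b → Fin (m + 1) → ℂ)) := by
    rw [Subtype.range_coe, ← span_top S o x hx huniq]
    exact Submodule.span_le.2 htb
  let B : Module.Basis b ℂ (Fin (m + 1) → ℂ) := Module.Basis.mk hb hspan
  have : Fintype b := FiniteDimensional.fintypeBasisIndex B
  have hcard : Fintype.card b = m + 1 := by
    have h1 := Module.finrank_eq_card_basis B
    rw [Module.finrank_fin_fun] at h1
    exact h1.symm
  let v0 : b := ⟨Pi.single o 1, hsb rfl⟩
  let e0 : b ≃ Fin (m + 1) := Fintype.equivFinOfCardEq hcard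
  let e : b ≃ Fin (m + 1) := e0.trans (Equiv.swap (e0 v0) 0)
  have he : e v0 = 0 := by
    simp [e]
  have he' : e.symm 0 = v0 := by
    rw [← he, Equiv.symm_apply_apply]
  have hg : ∀ v : b, ∃ r : Fin (m + 1) → ℤ, castRow r = v ∧
      (v = v0 → r = Pi.single o 1) ∧ (v ≠ v0 → r ∈ rows S o) := by
    intro v
    by_cases hv : v = v0
    · subst hv
      exact ⟨Pi.single o 1, castRow_single o, fun _ => rfl, fun h => absurd rfl h⟩
    · rcases hbt v.2 with h | ⟨r, hr, h⟩
      · exact absurd (Subtype.ext h) hv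
      · exact ⟨r, h, fun h => absurd h hv, fun _ => hr⟩
  choose g hg1 hg2 hg3 using hg
  refine ⟨fun i => g (e.symm i), ?_, ?_, ?_⟩
  · simp only
    exact hg2 _ he'
  · intro i hi
    refine hg3 _ fun h => hi ?_
    rw [← he', e.symm.injective.eq_iff] at h
    exact h
  · intro hdet
    set A : Matrix (Fin (m + 1)) (Fin (m + 1)) ℤ := fun i => g (e.symm i) with hA
    have h1 : (A.map (Int.cast : ℤ → ℂ)).det = 0 := by
      have := (Int.castRingHom ℂ).map_det A
      rw [hdet] at this
      simp only [map_zero] at this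
      exact this.symm
    have h2 : LinearIndependent ℂ (A.map (Int.cast : ℤ → ℂ)).row := by
      have h3 : (A.map (Int.cast : ℤ → ℂ)).row = fun i => ((e.symm i : b) : Fin (m + 1) → ℂ) := by
        funext i
        rw [← hg1]
        rfl
      rw [h3]
      exact hb.comp _ e.symm.injective
    rw [Matrix.linearIndependent_rows_iff_isUnit, Matrix.isUnit_iff_isUnit_det, h1] at h2
    exact not_isUnit_zero h2

theorem rowT_cast {n : ℕ} {S : Set (Equation n)} {o : Fin n} {r : Fin n → ℤ}
    (hr : r ∈ rows S o) : RowT (fun j => (r j : ℝ)) := by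
  have hs : ∀ a : Fin n, Bit (Pi.single a (1 : ℝ)) := fun a =>
    Or.inr ⟨a, 1, zero_le_one, le_rfl, rfl⟩
  have hc : ∀ a j : Fin n, (((Pi.single a 1 : Fin n → ℤ) j : ℤ) : ℝ) =
      (Pi.single a (1 : ℝ) : Fin n → ℝ) j := by
    intro a j
    by_cases h : j = a
    · subst h; simp
    · simp [Pi.single_eq_of_ne h]
  rcases hr with ⟨i, j, k, -, rfl⟩ | ⟨i, -, rfl⟩
  · refine ⟨Pi.single i 1, Pi.single j 1, Pi.single k 1, hs i, hs j, hs k, ?_⟩
    ext l
    simp only [Pi.add_apply, Pi.sub_apply, Int.cast_add, Int.cast_sub, hc]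
  · refine ⟨Pi.single i 1, 0, Pi.single o 1, hs i, Or.inl rfl, hs o, ?_⟩
    ext l
    simp only [Pi.add_apply, Pi.sub_apply, Int.cast_sub, hc, Pi.zero_apply, add_zero]

theorem minor_bound {m : ℕ} {S : Set (Equation (m + 1))} {o : Fin (m + 1)}
    {A : Matrix (Fin (m + 1)) (Fin (m + 1)) ℤ} (hA : ∀ i, i ≠ 0 → A i ∈ rows S o)
    (c : Fin (m + 1)) :
    |(A.submatrix (Fin.succAbove 0) c.succAbove).det| ≤ 2 ^ m := by
  have h1 := det_bound m ((A.submatrix (Fin.succAbove 0) c.succAbove).map (Int.cast : ℤ → ℝ))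
    (fun i => rowT_restrict (rowT_cast (hA (Fin.succAbove 0 i) (Fin.succAbove_ne 0 i))) c)
  have h2 : ((A.submatrix (Fin.succAbove 0) c.succAbove).map (Int.cast : ℤ → ℝ)).det =
      (((A.submatrix (Fin.succAbove 0) c.succAbove).det : ℤ) : ℝ) :=
    ((Int.castRingHom ℝ).map_det _).symm
  rw [h2] at h1
  exact_mod_cast h1

theorem abs_le_of_dvd {a b : ℤ} (hb : b ≠ 0) (h : a ∣ b) : |a| ≤ |b| := by
  have := Int.natAbs_le_of_dvd_ne_zero h hb
  rw [Int.abs_eq_natAbs, Int.abs_eq_natAbs]
  exact_mod_cast this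

/-- **Full (positive) answer to Q1.** Let `n ≥ 1` and let `S` be a system of equations `x_i = 1` and
`x_i + x_j = x_k` in `x_1, …, x_n` with exactly one complex solution `x`. Then every `x_i` is
a rational number whose numerator and denominator, in lowest terms, are at most `2 ^ (n - 1)` in
absolute value. -/
theorem result (n : ℕ) (hn : 1 ≤ n) (S : Set (Equation n))
    (hS : ∃! x : Fin n → ℂ, ∀ e ∈ S, e.Holds x) (x : Fin n → ℂ) (hx : ∀ e ∈ S, e.Holds x)
    (i : Fin n) :
    ∃ r : ℚ, x i = (r : ℂ) ∧ |r.num| ≤ 2 ^ (n - 1) ∧ r.den ≤ 2 ^ (n - 1) := by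
  obtain ⟨m, rfl⟩ : ∃ m, n = m + 1 := ⟨n - 1, by omega⟩
  have huniq : ∀ y : Fin (m + 1) → ℂ, (∀ e ∈ S, e.Holds y) → y = x :=
    fun y hy => hS.unique hy hx
  rw [Nat.add_sub_cancel]
  by_cases hone : ∃ o, Equation.one o ∈ S
  · obtain ⟨o, ho⟩ := hone
    obtain ⟨A, hA0, hA, hdet⟩ := exists_matrix S o ho x hx huniq
    set D : Fin (m + 1) → ℤ := fun c => (A.submatrix (Fin.succAbove 0) c.succAbove).det with hD
    have hDb : ∀ c, |D c| ≤ 2 ^ m := fun c => minor_bound hA c
    have hdetA : A.det = (-1) ^ (o : ℕ) * D o := by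
      rw [Matrix.det_succ_row A 0, Finset.sum_eq_single o]
      · rw [hA0]
        simp [hD]
      · intro j _ hj
        rw [hA0, Pi.single_eq_of_ne hj]
        simp
      · simp
    have hmul : (A.map (Int.cast : ℤ → ℂ)) *ᵥ x = Pi.single 0 1 := by
      funext r
      by_cases hr : r = 0
      · subst hr
        have h1 := hx _ ho
        simp only [Equation.Holds] at h1
        rw [Pi.single_eq_same, Matrix.mulVec, dotProduct, Finset.sum_eq_single o]
        · simp [hA0, h1]
        · intro j _ hj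
          rw [Matrix.map_apply, hA0, Pi.single_eq_of_ne hj]
          simp
        · simp
      · rw [Pi.single_eq_of_ne hr, Matrix.mulVec, dotProduct]
        have hsum : ∀ (a : Fin (m + 1)), ∑ j, (((Pi.single a 1 : Fin (m + 1) → ℤ) j : ℤ) : ℂ) * x j
            = x a := by
          intro a
          rw [Finset.sum_eq_single a]
          · simp
          · intro j _ hj
            rw [Pi.single_eq_of_ne hj]
            simp
          · simp
        rcases hA r hr with ⟨i, j, k, h1, h2⟩ | ⟨i, h1, h2⟩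
        · have h3 := hx _ h1
          simp only [Equation.Holds] at h3
          simp only [Matrix.map_apply, h2, Pi.add_apply, Pi.sub_apply, Int.cast_add, Int.cast_sub,
            add_mul, sub_mul, Finset.sum_add_distrib, Finset.sum_sub_distrib, hsum]
          rw [h3, sub_self]
        · have h3 := hx _ h1
          have h4 := hx _ ho
          simp only [Equation.Holds] at h3 h4
          simp only [Matrix.map_apply, h2, Pi.sub_apply, Int.cast_sub, sub_mul,
            Finset.sum_sub_distrib, hsum]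
          rw [h3, h4, sub_self]
    have hcr : ((A.det : ℤ) : ℂ) * x i = (((-1) ^ (i : ℕ) * D i : ℤ) : ℂ) := by
      have h1 : (A.map (Int.cast : ℤ → ℂ)).adjugate *ᵥ ((A.map (Int.cast : ℤ → ℂ)) *ᵥ x) =
          (A.map (Int.cast : ℤ → ℂ)).det • x := by
        rw [Matrix.mulVec_mulVec, Matrix.adjugate_mul, Matrix.smul_mulVec, Matrix.one_mulVec]
      rw [hmul] at h1
      have h2 := congrFun h1 i
      rw [Matrix.mulVec_single_one, Matrix.col_apply,
        Matrix.adjugate_fin_succ_eq_det_submatrix, Pi.smul_apply, smul_eq_mul] at h2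
      have h3 : (A.map (Int.cast : ℤ → ℂ)).det = ((A.det : ℤ) : ℂ) :=
        ((Int.castRingHom ℂ).map_det _).symm
      have h4 : ((A.map (Int.cast : ℤ → ℂ)).submatrix (Fin.succAbove 0) i.succAbove).det =
          ((D i : ℤ) : ℂ) :=
        ((Int.castRingHom ℂ).map_det _).symm
      rw [h3, h4] at h2
      rw [← h2]
      push_cast
      simp
    have hQ : A.det ≠ 0 := hdet
    refine ⟨(((-1) ^ (i : ℕ) * D i : ℤ) : ℚ) / ((A.det : ℤ) : ℚ), ?_, ?_, ?_⟩
    · have hQ' : ((A.det : ℤ) : ℂ) ≠ 0 := by exact_mod_cast hQ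
      rw [Rat.cast_div, Rat.cast_intCast, Rat.cast_intCast, eq_div_iff hQ', mul_comm]
      exact hcr
    · by_cases hP : ((-1) ^ (i : ℕ) * D i : ℤ) = 0
      · rw [hP]
        simp
      · have h1 := Rat.num_dvd ((-1) ^ (i : ℕ) * D i : ℤ) hQ
        rw [← Rat.divInt_eq_div]
        refine (abs_le_of_dvd hP h1).trans ?_
        rw [abs_mul, abs_pow, abs_neg, abs_one, one_pow, one_mul]
        exact hDb i
    · have h1 := Rat.den_dvd ((-1) ^ (i : ℕ) * D i : ℤ) A.det
      rw [← Rat.divInt_eq_div]
      have h2 := abs_le_of_dvd hQ h1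
      have h3 : |A.det| ≤ 2 ^ m := by
        rw [hdetA, abs_mul, abs_pow, abs_neg, abs_one, one_pow, one_mul]
        exact hDb o
      rw [Nat.abs_cast] at h2
      exact_mod_cast h2.trans h3
  · have h0 : (0 : Fin (m + 1) → ℂ) = x := by
      refine huniq 0 fun e he => ?_
      cases e with
      | one o => exact absurd ⟨o, he⟩ hone
      | add i j k => simp [Equation.Holds]
    refine ⟨0, ?_, ?_, ?_⟩
    · rw [← h0]; simp
    · simp
    · simpa using Nat.one_le_two_pow

end Pool.Agent.Results.MP_555c3f_al.PowerBound
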